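import Pool.Agent.CatVal.Main

set_option autoImplicit false

namespace Pool.Agent.Results.MP_b88151_nt.WeightedCoincidences

/-- For all integers `a, b ≥ 1` there are infinitely many positive integers `n` with
`a * ν₂(C_n) = b * ν₃(C_n)`, where `C_n` is the `n`-th Catalan number. -/
theorem result : ∀ a b : ℕ, 1 ≤ a → 1 ≤ b →
    {n : ℕ | 0 < n ∧ a * padicValNat 2 (catalan n) = b * padicValNat 3 (catalan n)}.Infinite :=
  fun a b ha hb => Pool.Agent.CatVal.main a b ha hb

end Pool.Agent.Results.MP_b88151_nt.WeightedCoincidences
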